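import Pool.Agent.W739.CY.Stm

/-!
# Part VR of project CY: removal of the left wall
-/

set_option autoImplicit false

namespace Pool.Agent.W369.CY

open Pool.Agent.W739.CY

section spl

variable {C : Type} [DecidableEq C]

omit [DecidableEq C] in
theorem spl_congr : ∀ (w : List C) (f g : List C → C → List C → ℝ),
    (∀ v c u, w = v ++ c :: u → f v c u = g v c u) → spl f w = spl g w
  | [], _, _, _ => rfl
  | x :: w, f, g, h => by
      simp only [spl]
      rw [h [] x w rfl]
      congr 1
      refine spl_congr w _ _ fun v c u e => h (x :: v) c u ?_
      rw [e, List.cons_append]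

omit [DecidableEq C] in
theorem spl_add : ∀ (w : List C) (f g : List C → C → List C → ℝ),
    spl (fun v c u => f v c u + g v c u) w = spl f w + spl g w
  | [], _, _ => by simp [spl]
  | x :: w, f, g => by
      simp only [spl]
      rw [spl_add w]
      ring

omit [DecidableEq C] in
theorem spl_mul (k : ℝ) : ∀ (w : List C) (f : List C → C → List C → ℝ),
    spl (fun v c u => k * f v c u) w = k * spl f w
  | [], _ => by simp [spl]
  | x :: w, f => by
      simp only [spl]
      rw [spl_mul k w]
      ring

omit [DecidableEq C] in
theorem spl_zero : ∀ (w : List C), spl (fun _ _ _ => (0 : ℝ)) w = 0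
  | [] => rfl
  | x :: w => by
      simp only [spl]
      rw [spl_zero w]
      ring

omit [DecidableEq C] in
theorem spl_append : ∀ (v u : List C) (g : List C → C → List C → ℝ),
    spl g (v ++ u) = spl (fun v1 c v2 => g v1 c (v2 ++ u)) v +
      spl (fun u1 c u2 => g (v ++ u1) c u2) u
  | [], u, g => by simp [spl]
  | x :: v, u, g => by
      simp only [spl, List.cons_append]
      rw [spl_append v u]
      ring

omit [DecidableEq C] in
theorem spl_spl : ∀ (w : List C) (h : List C → C → List C → C → List C → ℝ),
    spl (fun v d u => spl (fun v1 c v2 => h v1 c v2 d u) v) w =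
      spl (fun v1 c w' => spl (fun v2 d u => h v1 c v2 d u) w') w
  | [], _ => rfl
  | x :: w, h => by
      simp only [spl]
      rw [spl_add w, spl_spl w (fun v1 c v2 d u => h (x :: v1) c v2 d u)]
      ring

omit [DecidableEq C] in
theorem Pr_append : ∀ (a : Option C) (v : List C) (c : C) (u : List C) (b : Option C),
    Pr a (v ++ c :: u) b ↔ Pr a v (some c) ∧ Pr (some c) u b
  | a, [], c, u, b => by simp [Pr]
  | a, x :: v, c, u, b => by
      simp only [List.cons_append, Pr]
      rw [Pr_append (some x) v c u b]
      tauto

omit [DecidableEq C] in
theorem Pr_none (a : Option C) (w : List C) (b : Option C) (h : Pr a w b) : Pr none w b := by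
  cases w with
  | nil => simp [Pr, ok]
  | cons x u => exact ⟨Or.inl rfl, h.2⟩

end spl

section main

variable {C : Type} [DecidableEq C]

/-- the coefficient in the sum over the occurrences of the wall colour -/
noncomputable def gg (p : ℝ) (y : C) (b : Option C) (v : List C) (c : C) (u : List C) : ℝ :=
  if some c = some y then
    p ^ v.length / (1 - p ^ (v.length + 1)) * F p none v (some y) * F p (some y) u b else 0

theorem key (hDEL : S_DEL) (p : ℝ) (hp : Good p) (y : C) (b : Option C) (hb : ok (some y) b) :
    ∀ (n : ℕ) (w : List C), w.length = n →
      F p none w b = F p (some y) w b + spl (gg p y b) w := by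
  have hok : ∀ b : Option C, ok none b := fun _ => Or.inl rfl
  have h0 : ∀ a b, F p a ([] : List C) b = if ok a b then 1 else 0 := fun a b =>
    (hDEL C p hp a b).1
  have hN : ∀ a b, ∀ w : List C, ¬ Pr a w b → F p a w b = 0 := fun a b => (hDEL C p hp a b).2.1
  have hD : ∀ a b, ∀ w : List C, Pr a w b → (1 - p ^ w.length) * F p a w b =
      spl (fun v _ u => p ^ u.length * F p a (v ++ u) b) w := by
    intro a b w hw
    by_cases he : w = []
    · subst he
      simp [spl]
    · exact (hDEL C p hp a b).2.2.2.1 w he hw
  intro n
  induction n using Nat.strong_induction_on with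
  | _ n ih =>
  intro w hwn
  by_cases hpr : Pr none w b
  swap
  · rw [hN _ _ _ hpr, hN _ _ _ (fun h => hpr (Pr_none _ _ _ h))]
    rw [spl_congr w _ (fun _ _ _ => 0) ?_, spl_zero, add_zero]
    intro v c u e
    unfold gg
    split_ifs with hc
    · have hc' : c = y := Option.some.inj hc
      subst hc'
      have : ¬ (Pr none v (some c) ∧ Pr (some c) u b) := by
        rw [← Pr_append, ← e]
        exact hpr
      by_cases h1 : Pr none v (some c)
      · rw [hN _ _ u (fun h2 => this ⟨h1, h2⟩), mul_zero]
      · rw [hN _ _ v h1]
        ring
    · rfl
  cases w with
  | nil =>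
    rw [h0, h0, if_pos (hok b), if_pos hb]
    simp [spl]
  | cons x w' =>
    set w := x :: w' with hw
    have hne : 1 - p ^ w.length ≠ 0 := by
      rw [hw, List.length_cons]
      exact hp.sub _
    have hlen : ∀ v c u, w = v ++ c :: u → w.length = v.length + u.length + 1 := by
      intro v c u e
      rw [e]
      simp only [List.length_append, List.length_cons]
      omega
    -- the letter `d` is deleted
    have e1 : (1 - p ^ w.length) * F p none w b =
        spl (fun v _ u => p ^ u.length * F p (some y) (v ++ u) b) w +
        spl (fun v _ u => p ^ u.length * spl (gg p y b) (v ++ u)) w := by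
      rw [hD none b w hpr, ← spl_add]
      refine spl_congr w _ _ fun v c u e => ?_
      have hl := hlen v c u e
      rw [ih (v ++ u).length (by rw [List.length_append]; omega) (v ++ u) rfl]
      ring
    -- the sum over the letters of the first kind
    have e2 : spl (fun v _ u => p ^ u.length * F p (some y) (v ++ u) b) w =
        (1 - p ^ w.length) * F p (some y) w b +
          (if x = y then p ^ w'.length * F p (some y) w' b else 0) := by
      by_cases hxy : x = y
      · rw [if_pos hxy]
        have hnp : ¬ Pr (some y) w b := by
          rw [hw]
          simp only [Pr]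
          rintro ⟨h1, -⟩
          rcases h1 with h1 | h1
          · exact absurd h1 (by simp)
          · exact h1 (by rw [hxy])
        rw [hN _ _ _ hnp, mul_zero, zero_add, hw]
        simp only [spl, List.nil_append]
        rw [spl_congr w' _ (fun _ _ _ => 0) ?_, spl_zero, add_zero]
        intro v c u _
        have : ¬ Pr (some y) (x :: v ++ u) b := by
          simp only [List.cons_append, Pr]
          rintro ⟨h1, -⟩
          rcases h1 with h1 | h1
          · exact absurd h1 (by simp)
          · exact h1 (by rw [hxy])
        rw [hN _ _ _ this, mul_zero]
      · rw [if_neg hxy, add_zero, hD]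
        rw [hw]
        refine ⟨Or.inr (fun h => hxy (Option.some.inj h).symm), ?_⟩
        exact hpr.2
    -- the sum over the letters of the second kind
    have e3 : spl (fun v _ u => p ^ u.length * spl (gg p y b) (v ++ u)) w =
        spl (fun v c u => if some c = some y then
          (p ^ v.length * (1 - p ^ u.length) / (1 - p ^ (v.length + 1)) +
            (if v = [] then 0 else p ^ (v.length + u.length))) *
              (F p none v (some y) * F p (some y) u b) else 0) w := by
      have e4 : spl (fun v _ u => p ^ u.length * spl (gg p y b) (v ++ u)) w =
          spl (fun v d u => spl (fun v1 c v2 => p ^ u.length * gg p y b v1 c (v2 ++ u)) v) w +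
          spl (fun v d u => spl (fun u1 c u2 => p ^ u.length * gg p y b (v ++ u1) c u2) u) w := by
        rw [← spl_add]
        refine spl_congr w _ _ fun v c u _ => ?_
        rw [spl_append, mul_add, spl_mul, spl_mul]
      have e5 : spl (fun v d u => spl (fun u1 c u2 => p ^ u.length * gg p y b (v ++ u1) c u2) u) w =
          spl (fun v d u => spl (fun u1 c u2 =>
            p ^ (u1.length + u2.length + 1) * gg p y b (v ++ u1) c u2) u) w := by
        refine spl_congr w _ _ fun v c u _ => ?_
        refine spl_congr u _ _ fun u1 c1 u2 e => ?_
        rw [e]
        simp only [List.length_append, List.length_cons]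
        ring_nf
      rw [e4, e5, spl_spl w (fun v1 c v2 d u => p ^ u.length * gg p y b v1 c (v2 ++ u)),
        ← spl_spl w (fun v d u1 c u2 => p ^ (u1.length + u2.length + 1) *
          gg p y b (v ++ u1) c u2), ← spl_add]
      refine spl_congr w _ _ fun v c u e => ?_
      by_cases hc : some c = some y
      swap
      · rw [if_neg hc]
        rw [spl_congr u _ (fun _ _ _ => 0) ?_, spl_congr v _ (fun _ _ _ => 0) ?_, spl_zero,
          spl_zero, add_zero]
        · intro v1 d v2 _
          unfold gg
          rw [if_neg hc, mul_zero]
        · intro v1 d v2 _
          unfold gg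
          rw [if_neg hc, mul_zero]
      rw [if_pos hc]
      have hc' : c = y := Option.some.inj hc
      have hpp : Pr none v (some y) ∧ Pr (some y) u b := by
        rw [← hc', ← Pr_append, ← e]
        exact hpr
      have f1 : spl (fun v2 d u' => p ^ u'.length * gg p y b v c (v2 ++ u')) u =
          p ^ v.length * (1 - p ^ u.length) / (1 - p ^ (v.length + 1)) *
            (F p none v (some y) * F p (some y) u b) := by
        have : spl (fun v2 d u' => p ^ u'.length * gg p y b v c (v2 ++ u')) u =
            (p ^ v.length / (1 - p ^ (v.length + 1)) * F p none v (some y)) *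
              spl (fun v2 _ u' => p ^ u'.length * F p (some y) (v2 ++ u') b) u := by
          rw [← spl_mul]
          refine spl_congr u _ _ fun v2 d u' _ => ?_
          unfold gg
          rw [if_pos hc]
          ring
        rw [this, ← hD (some y) b u hpp.2]
        ring
      have f2 : spl (fun v1 d u1 => p ^ (u1.length + u.length + 1) *
          gg p y b (v1 ++ u1) c u) v =
          (if v = [] then 0 else p ^ (v.length + u.length)) *
            (F p none v (some y) * F p (some y) u b) := by
        by_cases hv : v = []
        · rw [if_pos hv, hv]
          simp [spl]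
        · rw [if_neg hv]
          have hvl : 0 < v.length := List.length_pos_iff.2 hv
          obtain ⟨A, hA⟩ : ∃ A, v.length = A + 1 := ⟨v.length - 1, by omega⟩
          have hnA : 1 - p ^ (A + 1) ≠ 0 := hp.sub A
          have : spl (fun v1 d u1 => p ^ (u1.length + u.length + 1) *
              gg p y b (v1 ++ u1) c u) v =
              (p ^ (u.length + 1) * (p ^ A / (1 - p ^ (A + 1))) * F p (some y) u b) *
                spl (fun v1 _ u1 => p ^ u1.length * F p none (v1 ++ u1) (some y)) v := by
            rw [← spl_mul]
            refine spl_congr v _ _ fun v1 d u1 e' => ?_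
            have hl : (v1 ++ u1).length = A := by
              have := congrArg List.length e'
              simp only [List.length_append, List.length_cons] at this ⊢
              omega
            unfold gg
            rw [if_pos hc, hl]
            ring
          rw [this, ← hD none (some y) v hpp.1, hA]
          field_simp
          ring
      rw [f1, f2]
      ring
    have e6 : (1 - p ^ w.length) * spl (gg p y b) w =
        spl (fun v c u => if some c = some y then
          (p ^ v.length * (1 - p ^ u.length) / (1 - p ^ (v.length + 1)) +
            (if v = [] then 0 else p ^ (v.length + u.length))) *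
              (F p none v (some y) * F p (some y) u b) else 0) w +
          (if x = y then p ^ w'.length * F p (some y) w' b else 0) := by
      have e7 : (if x = y then p ^ w'.length * F p (some y) w' b else 0) =
          spl (fun v c u => if v = [] ∧ c = y then p ^ u.length * F p (some y) u b else 0) w := by
        rw [hw]
        simp only [spl]
        rw [spl_congr w' _ (fun _ _ _ => 0) ?_, spl_zero, add_zero]
        · simp
        · intro v c u _
          rw [if_neg]
          rintro ⟨h, -⟩
          exact absurd h (by simp)
      rw [e7, ← spl_add, ← spl_mul]
      refine spl_congr w _ _ fun v c u e => ?_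
      have hl := hlen v c u e
      unfold gg
      by_cases hc : some c = some y
      swap
      · rw [if_neg hc, if_neg hc, if_neg (fun h => hc (by rw [h.2])), mul_zero, add_zero]
      have hc' : c = y := Option.some.inj hc
      rw [if_pos hc, if_pos hc, hl]
      have hn1 : 1 - p ^ (v.length + 1) ≠ 0 := hp.sub _
      by_cases hv : v = []
      · subst hv
        rw [if_pos rfl, if_pos ⟨rfl, hc'⟩, h0 none (some y), if_pos (hok _)]
        simp only [List.length_nil, zero_add, pow_one, pow_zero] at hn1 ⊢
        field_simp
        ring
      · rw [if_neg hv, if_neg (fun h => hv h.1)]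
        field_simp
        ring
    have e8 : (1 - p ^ w.length) * F p none w b =
        (1 - p ^ w.length) * (F p (some y) w b + spl (gg p y b) w) := by
      rw [e1, e2, e3, mul_add, e6]
      ring
    exact mul_left_cancel₀ hne e8

end main

theorem t_VR (hDEL : S_DEL) : S_VR := by
  intro C _ p hp a b w hab
  cases a with
  | none =>
    rw [spl_congr w _ (fun _ _ _ => 0) ?_, spl_zero, sub_zero]
    intro v c u _
    rw [if_neg (by simp)]
  | some y =>
    have := key hDEL p hp y b hab w.length w rfl
    rw [this]
    unfold gg
    ring

end Pool.Agent.W369.CY
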